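import Pool.Agent.Helper55.CF.Goals

set_option autoImplicit false

/-!
# Packet GAUSS of MP_b612a6_ag: the complex Gaussian integral
-/

open Complex MeasureTheory
open scoped ComplexConjugate Real

namespace CF55

namespace Gauss31

/-- the first factor. -/
noncomputable def F (b c : ℂ) (s : ℝ) : ℂ := cexp (b * s ^ 2 + c * s + 0)

lemma F_int (b c : ℂ) (hb : b.re < 0) : Integrable (F b c) :=
  integrable_cexp_quadratic' hb c 0

lemma F_val (b c : ℂ) (hb : b.re < 0) :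
    ∫ s, F b c s = (π / -b) ^ (1 / 2 : ℂ) * cexp (0 - c ^ 2 / (4 * b)) :=
  integral_cexp_quadratic hb c 0

lemma split (a : ℝ) (β : ℂ) (ε : ℝ) (x : ℂ) :
    cexp (I * ((a * x ^ 2 + 2 * β * x).re : ℂ) - ε * ‖x‖ ^ 2) =
      F (-(ε - a * I)) (2 * β.re * I) x.re * F (-(ε + a * I)) (-(2 * β.im * I)) x.im := by
  unfold F
  rw [← Complex.exp_add]
  congr 1
  have h1 : ((‖x‖ : ℝ) : ℂ) ^ 2 = x.re ^ 2 + x.im ^ 2 := by
    have : ‖x‖ ^ 2 = x.re ^ 2 + x.im ^ 2 := by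
      rw [← Complex.normSq_eq_norm_sq, Complex.normSq_apply]; ring
    exact_mod_cast this
  have h2 : (((a : ℂ) * x ^ 2 + 2 * β * x).re) =
      a * (x.re ^ 2 - x.im ^ 2) + 2 * (β.re * x.re - β.im * x.im) := by
    simp [pow_two]
    ring
  rw [h1, h2]
  push_cast
  ring

lemma sqrt_part (a ε : ℝ) (hε : 0 < ε) :
    ((π : ℂ) / -(-(ε - a * I))) ^ (1 / 2 : ℂ) * ((π : ℂ) / -(-(ε + a * I))) ^ (1 / 2 : ℂ) =
      ((π / Real.sqrt (ε ^ 2 + a ^ 2) : ℝ) : ℂ) := by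
  rw [neg_neg, neg_neg]
  set w : ℂ := (π : ℂ) / (ε - a * I) with hw
  have hne : (ε : ℂ) - a * I ≠ 0 := by
    intro h
    have := congrArg Complex.re h
    simp at this
    linarith
  have hcw : (π : ℂ) / (ε + a * I) = conj w := by
    rw [hw, map_div₀, map_sub, map_mul, Complex.conj_ofReal, Complex.conj_ofReal,
      Complex.conj_ofReal, Complex.conj_I]
    congr 1
    ring
  have hnorm : ‖w‖ = π / Real.sqrt (ε ^ 2 + a ^ 2) := by
    rw [hw, norm_div]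
    congr 1
    · simp [abs_of_pos Real.pi_pos]
    · rw [Complex.norm_eq_sqrt_sq_add_sq]
      congr 1
      simp
  have hwre : 0 < w.re := by
    rw [hw, Complex.div_re]
    simp
    have : 0 < Complex.normSq ((ε : ℂ) - a * I) := Complex.normSq_pos.2 hne
    positivity
  have harg : w.arg ≠ π := by
    intro h
    rw [Complex.arg_eq_pi_iff] at h
    linarith [h.1]
  rw [hcw, Complex.conj_cpow _ _ harg]
  have h12 : conj (1 / 2 : ℂ) = 1 / 2 := by
    rw [map_div₀, map_one, Complex.conj_ofNat]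
  rw [h12, Complex.mul_conj, Complex.normSq_eq_norm_sq]
  have hA : (w ^ (1 / 2 : ℂ)) ^ 2 = w := by
    rw [← Complex.cpow_nat_mul]
    norm_num
  rw [← norm_pow, hA, hnorm]

lemma exp_part (a ε : ℝ) (β : ℂ) (hε : 0 < ε) :
    (0 - (2 * (β.re : ℂ) * I) ^ 2 / (4 * (-((ε : ℂ) - a * I)))) +
      (0 - (-(2 * (β.im : ℂ) * I)) ^ 2 / (4 * (-((ε : ℂ) + a * I)))) =
      -((ε * ‖β‖ ^ 2 : ℝ) + I * (((a : ℂ) * β ^ 2).re : ℂ)) / ((ε ^ 2 + a ^ 2 : ℝ) : ℂ) := by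
  have hne : (ε : ℂ) - a * I ≠ 0 := by
    intro h
    have := congrArg Complex.re h
    simp at this
    linarith
  have hne' : (ε : ℂ) + a * I ≠ 0 := by
    intro h
    have := congrArg Complex.re h
    simp at this
    linarith
  have hprod : ((ε ^ 2 + a ^ 2 : ℝ) : ℂ) = ((ε : ℂ) - a * I) * ((ε : ℂ) + a * I) := by
    push_cast
    linear_combination (a : ℂ) ^ 2 * Complex.I_sq
  have h1 : ‖β‖ ^ 2 = β.re ^ 2 + β.im ^ 2 := by
    rw [← Complex.normSq_eq_norm_sq, Complex.normSq_apply]; ring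
  have h2 : ((a : ℂ) * β ^ 2).re = a * (β.re ^ 2 - β.im ^ 2) := by
    simp [pow_two]
  rw [hprod, h1, h2]
  push_cast
  have h3 : (0 - (2 * (β.re : ℂ) * I) ^ 2 / (4 * (-((ε : ℂ) - a * I)))) =
      -(β.re : ℂ) ^ 2 / ((ε : ℂ) - a * I) := by
    rw [mul_pow, mul_pow, Complex.I_sq]
    field_simp
    ring
  have h4 : (0 - (-(2 * (β.im : ℂ) * I)) ^ 2 / (4 * (-((ε : ℂ) + a * I)))) =
      -(β.im : ℂ) ^ 2 / ((ε : ℂ) + a * I) := by
    rw [neg_sq, mul_pow, mul_pow, Complex.I_sq]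
    field_simp
    ring
  rw [h3, h4, div_add_div _ _ hne hne']
  congr 1
  ring

lemma real_case (a : ℝ) (β : ℂ) (ε : ℝ) (hε : 0 < ε) :
    Integrable (fun x : ℂ => cexp (I * ((a * x ^ 2 + 2 * β * x).re : ℂ) - ε * ‖x‖ ^ 2)) ∧
    ∫ x : ℂ, cexp (I * ((a * x ^ 2 + 2 * β * x).re : ℂ) - ε * ‖x‖ ^ 2) =
      (π / Real.sqrt (ε ^ 2 + a ^ 2) : ℝ) *
        cexp (-((ε * ‖β‖ ^ 2 : ℝ) + I * ((a * β ^ 2).re : ℂ)) / ((ε ^ 2 + a ^ 2 : ℝ) : ℂ)) := by
  have hb1 : (-((ε : ℂ) - a * I)).re < 0 := by simp [hε]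
  have hb2 : (-((ε : ℂ) + a * I)).re < 0 := by simp [hε]
  have hi1 := F_int _ (2 * β.re * I) hb1
  have hi2 := F_int _ (-(2 * β.im * I)) hb2
  have hprod : Integrable (fun p : ℝ × ℝ => F (-(ε - a * I)) (2 * β.re * I) p.1 *
      F (-(ε + a * I)) (-(2 * β.im * I)) p.2) := hi1.mul_prod hi2
  have hmp := Complex.volume_preserving_equiv_real_prod
  have hfun : (fun x : ℂ => cexp (I * ((a * x ^ 2 + 2 * β * x).re : ℂ) - ε * ‖x‖ ^ 2)) =
      fun x : ℂ => (fun p : ℝ × ℝ => F (-(ε - a * I)) (2 * β.re * I) p.1 *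
      F (-(ε + a * I)) (-(2 * β.im * I)) p.2) (Complex.measurableEquivRealProd x) := by
    funext x
    rw [split]
    rfl
  rw [hfun]
  refine ⟨?_, ?_⟩
  · exact hmp.integrable_comp_of_integrable hprod
  · rw [hmp.integral_comp' (fun p : ℝ × ℝ => F (-(ε - a * I)) (2 * β.re * I) p.1 *
      F (-(ε + a * I)) (-(2 * β.im * I)) p.2)]
    rw [Measure.volume_eq_prod, integral_prod_mul, F_val _ _ hb1, F_val _ _ hb2,
      mul_mul_mul_comm, sqrt_part a ε hε, ← Complex.exp_add, exp_part a ε β hε]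

end Gauss31

open Gauss31 in
/-- **Packet GAUSS**. -/
theorem stmtGAUSS : G_GAUSS := by
  intro α β ε hε
  obtain ⟨w, hw1, hw2⟩ : ∃ w : Circle, α * (w : ℂ) ^ 2 = ‖α‖ ∧ conj α = ‖α‖ * (w : ℂ) ^ 2 := by
    have h1 : α * ((Circle.exp (-(α.arg / 2)) : Circle) : ℂ) ^ 2 = ‖α‖ := by
      rw [Circle.coe_exp, ← Complex.exp_nat_mul]
      have h0 := Complex.norm_mul_exp_arg_mul_I α
      have : (α.arg : ℂ) * I + ((2 : ℕ) : ℂ) * (((-(α.arg / 2) : ℝ) : ℂ) * I) = 0 := by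
        push_cast
        ring
      calc α * cexp (((2 : ℕ) : ℂ) * (((-(α.arg / 2) : ℝ) : ℂ) * I)) =
          (‖α‖ * cexp (α.arg * I)) * cexp (((2 : ℕ) : ℂ) * (((-(α.arg / 2) : ℝ) : ℂ) * I)) := by
            rw [h0]
        _ = ‖α‖ := by
            rw [mul_assoc, ← Complex.exp_add, this]
            simp
    refine ⟨Circle.exp (-(α.arg / 2)), h1, ?_⟩
    generalize Circle.exp (-(α.arg / 2)) = w at h1
    have h2 : (w : ℂ) * conj (w : ℂ) = 1 := by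
      rw [Complex.mul_conj, Circle.normSq_coe]
      simp
    have h3 := congrArg conj h1
    rw [map_mul, map_pow, Complex.conj_ofReal] at h3
    linear_combination (w : ℂ) ^ 2 * h3 - conj α * (1 + (w : ℂ) * conj (w : ℂ)) * h2
  have hmp := (rotation w).measurePreserving
  have hfun : ∀ x : ℂ, cexp (I * ((α * (rotation w x) ^ 2 + 2 * β * (rotation w x)).re : ℂ) -
      ε * ‖rotation w x‖ ^ 2) =
      cexp (I * (((‖α‖ : ℝ) * x ^ 2 + 2 * (β * w) * x).re : ℂ) - ε * ‖x‖ ^ 2) := by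
    intro x
    rw [rotation_apply]
    have e1 : α * ((w : ℂ) * x) ^ 2 + 2 * β * (w * x) = (‖α‖ : ℝ) * x ^ 2 + 2 * (β * w) * x := by
      rw [← hw1]; ring
    have e2 : ‖(w : ℂ) * x‖ = ‖x‖ := by
      rw [norm_mul, Circle.norm_coe, one_mul]
    rw [e1, e2]
  obtain ⟨hI, hV⟩ := real_case ‖α‖ (β * w) ε hε
  constructor
  · rw [← hmp.integrable_comp_emb (rotation w).toHomeomorph.measurableEmbedding]
    refine hI.congr (Filter.Eventually.of_forall fun x => ?_)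
    exact (hfun x).symm
  · rw [← hmp.integral_comp (rotation w).toHomeomorph.measurableEmbedding]
    simp only [hfun]
    rw [hV]
    have e1 : ‖β * (w : ℂ)‖ = ‖β‖ := by
      rw [norm_mul, Circle.norm_coe, mul_one]
    have e2 : ((‖α‖ : ℝ) : ℂ) * (β * w) ^ 2 = conj α * β ^ 2 := by
      rw [hw2]; ring
    rw [e1, e2]

end CF55
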