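import Pool.Agent.Helper55.CF.Goals

set_option autoImplicit false

/-!
# Packet LB1 of MP_b612a6_ag: lower bounds from weighted boxes
-/

open Complex MeasureTheory Filter Asymptotics
open scoped ComplexConjugate Real ContDiff

namespace CF55

namespace LB131

/-- the box. -/
def box (w : Fin 3 → ℕ) (δ t : ℝ) : Set Z :=
  Set.univ.pi fun i => Metric.closedBall (0 : ℂ) (δ * t ^ w i)

lemma vol_box (w : Fin 3 → ℕ) (δ t : ℝ) (hδ : 0 < δ) (ht : 0 < t) :
    (volume (box w δ t)).toReal = (δ ^ 2 * π) ^ 3 * t ^ (2 * ∑ i, w i) := by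
  unfold box
  rw [volume_pi_pi]
  simp only [Complex.volume_closedBall]
  rw [ENNReal.toReal_prod]
  have h : ∀ i, (ENNReal.ofReal (δ * t ^ w i) ^ 2 * (NNReal.pi : ENNReal)).toReal =
      δ ^ 2 * π * (t ^ w i) ^ 2 := by
    intro i
    rw [ENNReal.toReal_mul, ENNReal.toReal_pow, ENNReal.toReal_ofReal (by positivity)]
    simp
    ring
  simp only [h]
  rw [Finset.prod_mul_distrib, Finset.prod_const, Finset.card_univ, Fintype.card_fin,
    Finset.prod_pow, Finset.prod_pow_eq_pow_sum]
  ring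

lemma vol_fin (w : Fin 3 → ℕ) (δ t : ℝ) : volume (box w δ t) ≠ ⊤ := by
  unfold box
  rw [volume_pi_pi]
  refine ENNReal.prod_ne_top fun i _ => ?_
  rw [Complex.volume_closedBall]
  exact ENNReal.mul_ne_top (ENNReal.pow_ne_top ENNReal.ofReal_ne_top) ENNReal.coe_ne_top

lemma meas_box (w : Fin 3 → ℕ) (δ t : ℝ) : MeasurableSet (box w δ t) :=
  MeasurableSet.univ_pi fun _ => Metric.isClosed_closedBall.measurableSet

end LB131

open LB131 in
/-- **Packet LB1**. -/
theorem stmtLB1 : G_LB1 := by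
  rintro w d h hd hS ⟨K, δ, hδ, hK⟩ hc φ hφ hφc hφ0 hφ1 ⟨C, k, hC⟩
  obtain ⟨δ', hδ', hδ'1⟩ := Metric.eventually_nhds_iff.1 hφ1
  set δ1 : ℝ := min δ (δ' / 2) with hδ1
  have hδ1p : 0 < δ1 := lt_min hδ (by linarith)
  set S := ∑ i, w i with hSdef
  -- the lower bound
  have hlow : ∀ R t : ℝ, 0 < R → 0 < t → t ≤ 1 →
      (δ1 ^ 2 * π) ^ 3 * t ^ (2 * S) * Real.exp (-(R * (K * t ^ d) ^ 2)) ≤
        ∫ z, φ z * Real.exp (-(R * ‖h z‖ ^ 2)) := by
    intro R t hR ht ht1
    have hint : Integrable (fun z => φ z * Real.exp (-(R * ‖h z‖ ^ 2))) := by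
      apply Continuous.integrable_of_hasCompactSupport
      · have := hφ.continuous
        fun_prop
      · exact hφc.mul_right
    have hnn : 0 ≤ᵐ[volume] (fun z => φ z * Real.exp (-(R * ‖h z‖ ^ 2))) :=
      Filter.Eventually.of_forall fun z => mul_nonneg (hφ0 z) (Real.exp_pos _).le
    refine le_trans ?_ (setIntegral_le_integral (s := box w δ1 t) hint hnn)
    rw [← vol_box w δ1 t hδ1p ht]
    have hconst : ∫ _ in box w δ1 t, Real.exp (-(R * (K * t ^ d) ^ 2)) =
        (volume (box w δ1 t)).toReal * Real.exp (-(R * (K * t ^ d) ^ 2)) := by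
      rw [setIntegral_const, smul_eq_mul, measureReal_def]
    rw [← hconst]
    refine setIntegral_mono_on ?_ hint.integrableOn (meas_box w δ1 t) ?_
    · exact integrableOn_const (vol_fin w δ1 t)
    · intro z hz
      have hz' : ∀ i, ‖z i‖ ≤ δ1 * t ^ w i := by
        intro i
        have := hz i (Set.mem_univ i)
        simpa using this
      have hφz : φ z = 1 := by
        apply hδ'1
        rw [dist_zero_right]
        have : ‖z‖ ≤ δ1 := by
          rw [pi_norm_le_iff_of_nonneg hδ1p.le]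
          intro i
          refine (hz' i).trans ?_
          have : t ^ w i ≤ 1 := pow_le_one₀ ht.le ht1
          nlinarith
        have h2 : δ1 ≤ δ' / 2 := min_le_right _ _
        linarith
      rw [hφz, one_mul]
      apply Real.exp_le_exp.2
      have hh : ‖h z‖ ≤ K * t ^ d := by
        apply hK t ht ht1
        intro i
        refine (hz' i).trans ?_
        exact mul_le_mul_of_nonneg_right (min_le_left _ _) (by positivity)
      have : ‖h z‖ ^ 2 ≤ (K * t ^ d) ^ 2 := pow_le_pow_left₀ (norm_nonneg _) hh 2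
      have := mul_le_mul_of_nonneg_left this hR.le
      linarith
  set c : ℝ := (δ1 ^ 2 * π) ^ 3 * Real.exp (-(K ^ 2)) with hcdef
  have hcpos : 0 < c := by
    have := Real.pi_pos
    positivity
  have hd' : (0 : ℝ) < d := by exact_mod_cast hd
  have hSd : (S : ℝ) < d := by exact_mod_cast hS
  set a : ℝ := 1 - S / d with ha
  have hapos : 0 < a := by
    have : (S : ℝ) / d < 1 := by rw [div_lt_one hd']; exact hSd
    linarith
  -- main inequality
  have hmain : ∀ R : ℝ, 2 ≤ R → c * R ^ a ≤ C * Real.log R ^ k := by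
    intro R hR
    have hRpos : 0 < R := by linarith
    set t : ℝ := R ^ (-(1 / (2 * (d : ℝ)))) with ht
    have htp : 0 < t := Real.rpow_pos_of_pos hRpos _
    have ht1 : t ≤ 1 := by
      apply Real.rpow_le_one_of_one_le_of_nonpos (by linarith)
      have : (0 : ℝ) < 1 / (2 * d) := by positivity
      linarith
    have h1 := (hlow R t hRpos htp ht1).trans (hC R hR)
    have e1 : t ^ (2 * S) = R ^ (-(S / d) : ℝ) := by
      rw [ht, ← Real.rpow_natCast, ← Real.rpow_mul hRpos.le]
      congr 1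
      push_cast
      field_simp
    have e2 : R * (K * t ^ d) ^ 2 = K ^ 2 := by
      have : (t ^ d) ^ 2 = R⁻¹ := by
        rw [← pow_mul, ht, ← Real.rpow_natCast, ← Real.rpow_mul hRpos.le, ← Real.rpow_neg_one]
        congr 1
        push_cast
        field_simp
      rw [mul_pow, this]
      field_simp
    rw [e1, e2] at h1
    have e3 : R ^ a = R ^ (-(S / d) : ℝ) * R := by
      rw [ha, sub_eq_add_neg, add_comm, Real.rpow_add hRpos, Real.rpow_one]
    rw [e3]
    rw [le_div_iff₀ hRpos] at h1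
    calc c * (R ^ (-(S / d) : ℝ) * R) =
        (δ1 ^ 2 * π) ^ 3 * R ^ (-(S / d) : ℝ) * Real.exp (-(K ^ 2)) * R := by
          rw [hcdef]; ring
      _ ≤ _ := h1
  have hlit : (fun x : ℝ => Real.log x ^ k) =o[atTop] fun x => x ^ a := by
    have := isLittleO_log_rpow_rpow_atTop (s := a) (k : ℝ) hapos
    simpa [Real.rpow_natCast] using this
  have hε : 0 < c / (2 * (|C| + 1)) := by positivity
  have hev := hlit.def hε
  obtain ⟨R, hR1, hR2⟩ := (hev.and (eventually_ge_atTop (2 : ℝ))).exists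
  have hRpos : 0 < R := by linarith
  have hRa : 0 < R ^ a := Real.rpow_pos_of_pos hRpos _
  rw [Real.norm_eq_abs, Real.norm_eq_abs, abs_of_pos hRa] at hR1
  have h1 := hmain R hR2
  have h2 : C * Real.log R ^ k ≤ |C| * |Real.log R ^ k| := by
    rw [← abs_mul]; exact le_abs_self _
  have h3 : |C| * |Real.log R ^ k| ≤ |C| * (c / (2 * (|C| + 1)) * R ^ a) :=
    mul_le_mul_of_nonneg_left hR1 (abs_nonneg _)
  have h4 : |C| * (c / (2 * (|C| + 1)) * R ^ a) = (|C| / (|C| + 1)) * (c / 2 * R ^ a) := by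
    field_simp
  have h5 : |C| / (|C| + 1) ≤ 1 := by
    rw [div_le_one (by positivity)]; linarith
  have h6 : (|C| / (|C| + 1)) * (c / 2 * R ^ a) ≤ 1 * (c / 2 * R ^ a) :=
    mul_le_mul_of_nonneg_right h5 (by positivity)
  have h7 : 0 < c * R ^ a := by positivity
  linarith

end CF55
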